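import Mathlib
import Pool.Agent.Helper17.Berk.Trop

/-!
# Tropical part of the tile lemma for annuli (module B15, MP_160e9b_an, helper12)
-/

open Topology Filter

namespace Pool.Agent.Helper17.Berk

/-- radii `t` in `(r₁, r₂)` at which `A / B` is in `(r₁, r₂)`, `A` has the only dominating index `i`
and `B` the only dominating index `j`. -/
def EE (A B : ℕ → ℝ) (r₁ r₂ : ℝ) (i j : ℕ) : Set ℝ :=
  {t | r₁ < t ∧ t < r₂ ∧ r₁ * tv B t < tv A t ∧ tv A t < r₂ * tv B t ∧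
    lo A t = i ∧ hi A t = i ∧ lo B t = j ∧ hi B t = j}

theorem eventually_exp_an {g : ℕ → ℝ} (hg : TP g) {t : ℝ} (ht : 0 < t) {k : ℕ} (h1 : lo g t = k)
    (h2 : hi g t = k) : ∀ᶠ t' in 𝓝 t, lo g t' = k ∧ hi g t' = k := by
  obtain ⟨t₀, h0, h3, h4⟩ := exists_below hg ht
  obtain ⟨t₁, h5, h6⟩ := exists_above hg ht
  filter_upwards [Ioo_mem_nhds h3 h5] with t' ht'
  rcases lt_trichotomy t' t with h | rfl | h
  · rw [← h1]; exact h4 t' ht'.1 h
  · exact ⟨h1, h2⟩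
  · rw [← h2]; exact h6 t' h ht'.2

theorem continuousAt_tv_an {g : ℕ → ℝ} (hg : TP g) {t : ℝ} (ht : 0 < t) : ContinuousAt (tv g) t :=
  (continuousOn_tv hg).continuousAt (Ici_mem_nhds ht)

theorem isOpen_EE {A B : ℕ → ℝ} (hA : TP A) (hB : TP B) {r₁ r₂ : ℝ} (h1 : 0 < r₁) (i j : ℕ) :
    IsOpen (EE A B r₁ r₂ i j) := by
  rw [isOpen_iff_mem_nhds]
  rintro t ⟨h2, h3, h4, h5, h6, h7, h8, h9⟩
  have ht0 : 0 < t := h1.trans h2
  have cA := continuousAt_tv_an hA ht0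
  have cB := continuousAt_tv_an hB ht0
  have e1 : ∀ᶠ t' in 𝓝 t, r₁ * tv B t' < tv A t' :=
    (continuousAt_const.mul cB).eventually_lt cA h4
  have e2 : ∀ᶠ t' in 𝓝 t, tv A t' < r₂ * tv B t' :=
    cA.eventually_lt (continuousAt_const.mul cB) h5
  filter_upwards [Ioi_mem_nhds h2, Iio_mem_nhds h3, e1, e2, eventually_exp_an hA ht0 h6 h7,
    eventually_exp_an hB ht0 h8 h9] with t' g1 g2 g3 g4 g5 g6
  exact ⟨g1, g2, g3, g4, g5.1, g5.2, g6.1, g6.2⟩

theorem pow_cmp_an {x : ℝ} (hx : 1 ≤ x) {i j : ℕ} (h : i ≤ j) : x ^ i ≤ x ^ j :=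
  pow_le_pow_right₀ hx h

theorem ordConnected_EE {A B : ℕ → ℝ} (hA : TP A) (hB : TP B) {r₁ r₂ : ℝ} (h1 : 0 < r₁)
    (h12 : r₁ < r₂) (i j : ℕ) : (EE A B r₁ r₂ i j).OrdConnected := by
  refine ⟨?_⟩
  rintro t ⟨h2, h3, h4, h5, h6, h7, h8, h9⟩ t' ⟨g2, g3, g4, g5, g6, g7, g8, g9⟩ s ⟨hs1, hs2⟩
  rcases hs1.eq_or_lt with rfl | hs1
  · exact ⟨h2, h3, h4, h5, h6, h7, h8, h9⟩
  rcases hs2.eq_or_lt with rfl | hs2
  · exact ⟨g2, g3, g4, g5, g6, g7, g8, g9⟩
  have ht0 : 0 < t := h1.trans h2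
  have hs0 : 0 < s := ht0.trans hs1
  have ht0' : 0 < t' := hs0.trans hs2
  have a1 := hi_le_lo hA ht0 hs1
  have a2 := hi_le_lo hA hs0 hs2
  have a3 := lo_le_hi hA hs0
  have b1 := hi_le_lo hB ht0 hs1
  have b2 := hi_le_lo hB hs0 hs2
  have b3 := lo_le_hi hB hs0
  have eA1 : lo A s = i := by omega
  have eA2 : hi A s = i := by omega
  have eB1 : lo B s = j := by omega
  have eB2 : hi B s = j := by omega
  -- values
  have vA : tv A s = tv A t * (s / t) ^ i := by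
    have := tv_eq_of_hi_eq_lo hA ht0 hs1.le (h7.trans eA1.symm)
    rw [this, h7]
  have vB : tv B s = tv B t * (s / t) ^ j := by
    have := tv_eq_of_hi_eq_lo hB ht0 hs1.le (h9.trans eB1.symm)
    rw [this, h9]
  have vA' : tv A t' = tv A s * (t' / s) ^ i := by
    have := tv_eq_of_hi_eq_lo hA hs0 hs2.le (eA2.trans g6.symm)
    rw [this, eA2]
  have vB' : tv B t' = tv B s * (t' / s) ^ j := by
    have := tv_eq_of_hi_eq_lo hB hs0 hs2.le (eB2.trans g8.symm)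
    rw [this, eB2]
  have q1 : 1 ≤ s / t := (one_le_div ht0).2 hs1.le
  have q2 : 1 ≤ t' / s := (one_le_div hs0).2 hs2.le
  have p1 : 0 < s / t := by positivity
  have p2 : 0 < t' / s := by positivity
  have hAt := tv_pos hA ht0
  have hBt := tv_pos hB ht0
  have hAs := tv_pos hA hs0
  have hBs := tv_pos hB hs0
  have h2' : 0 < r₂ := h1.trans h12
  refine ⟨h2.trans hs1, hs2.trans g3, ?_, ?_, eA1, eA2, eB1, eB2⟩
  · rcases le_total j i with hij | hij
    · rw [vA, vB]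
      calc r₁ * (tv B t * (s / t) ^ j) = (r₁ * tv B t) * (s / t) ^ j := by ring
        _ < tv A t * (s / t) ^ j := mul_lt_mul_of_pos_right h4 (by positivity)
        _ ≤ tv A t * (s / t) ^ i := mul_le_mul_of_nonneg_left (pow_cmp_an q1 hij) hAt.le
    · rw [vA', vB'] at g4
      by_contra hcon
      push Not at hcon
      have : tv A s * (t' / s) ^ i ≤ r₁ * (tv B s * (t' / s) ^ j) := by
        calc tv A s * (t' / s) ^ i ≤ (r₁ * tv B s) * (t' / s) ^ i :=
              mul_le_mul_of_nonneg_right hcon (by positivity)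
          _ ≤ (r₁ * tv B s) * (t' / s) ^ j :=
              mul_le_mul_of_nonneg_left (pow_cmp_an q2 hij) (by positivity)
          _ = _ := by ring
      linarith
  · rcases le_total j i with hij | hij
    · rw [vA', vB'] at g5
      by_contra hcon
      push Not at hcon
      have : r₂ * (tv B s * (t' / s) ^ j) ≤ tv A s * (t' / s) ^ i := by
        calc r₂ * (tv B s * (t' / s) ^ j) = (r₂ * tv B s) * (t' / s) ^ j := by ring
          _ ≤ tv A s * (t' / s) ^ j := mul_le_mul_of_nonneg_right hcon (by positivity)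
          _ ≤ tv A s * (t' / s) ^ i := mul_le_mul_of_nonneg_left (pow_cmp_an q2 hij) hAs.le
      linarith
    · rw [vA, vB]
      calc tv A t * (s / t) ^ i < (r₂ * tv B t) * (s / t) ^ i :=
            mul_lt_mul_of_pos_right h5 (by positivity)
        _ ≤ (r₂ * tv B t) * (s / t) ^ j :=
            mul_le_mul_of_nonneg_left (pow_cmp_an q1 hij) (by positivity)
        _ = _ := by ring

/-- a nonempty, open, order connected bounded set is an open interval. -/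
theorem eq_Ioo_of_open_an {S : Set ℝ} (hS : IsOpen S) (hc : S.OrdConnected) (hne : S.Nonempty)
    (hb : BddBelow S) (ha : BddAbove S) : S = Set.Ioo (sInf S) (sSup S) := by
  apply Set.Subset.antisymm
  · intro t ht
    obtain ⟨l, u, hlu, hsub⟩ := mem_nhds_iff_exists_Ioo_subset.1 (hS.mem_nhds ht)
    have h1 : (l + t) / 2 ∈ S := hsub ⟨by linarith [hlu.1], by linarith [hlu.1, hlu.2]⟩
    have h2 : (t + u) / 2 ∈ S := hsub ⟨by linarith [hlu.1, hlu.2], by linarith [hlu.2]⟩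
    exact ⟨lt_of_le_of_lt (csInf_le hb h1) (by linarith [hlu.1]),
      lt_of_lt_of_le (by linarith [hlu.2]) (le_csSup ha h2)⟩
  · rintro t ⟨h1, h2⟩
    obtain ⟨x, hx, hxt⟩ := exists_lt_of_csInf_lt hne h1
    obtain ⟨y, hy, hty⟩ := exists_lt_of_lt_csSup hne h2
    exact hc.out hx hy ⟨hxt.le, hty.le⟩

/-- the set `EE` is an open interval, with constant exponents up to the endpoints. -/
theorem EE_interval {A B : ℕ → ℝ} (hA : TP A) (hB : TP B) {r₁ r₂ : ℝ} (h1 : 0 < r₁)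
    (h12 : r₁ < r₂) {i j : ℕ} (hne : (EE A B r₁ r₂ i j).Nonempty) :
    ∃ u₁ u₂ : ℝ, u₁ < u₂ ∧ r₁ ≤ u₁ ∧ u₂ ≤ r₂ ∧ EE A B r₁ r₂ i j = Set.Ioo u₁ u₂ ∧
      hi A u₁ = i ∧ hi B u₁ = j ∧ lo A u₂ = i ∧ lo B u₂ = j := by
  set S := EE A B r₁ r₂ i j with hS
  have hb : BddBelow S := ⟨r₁, fun t ht => ht.1.le⟩
  have ha : BddAbove S := ⟨r₂, fun t ht => ht.2.1.le⟩
  have hI := eq_Ioo_of_open_an (isOpen_EE hA hB h1 i j) (ordConnected_EE hA hB h1 h12 i j) hne hb ha
  obtain ⟨t₀, ht₀⟩ := hne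
  have ht₀' : t₀ ∈ Set.Ioo (sInf S) (sSup S) := by rw [← hI]; exact ht₀
  have hu : sInf S < sSup S := ht₀'.1.trans ht₀'.2
  have hu1 : r₁ ≤ sInf S := le_csInf ⟨t₀, ht₀⟩ fun t ht => ht.1.le
  have hu2 : sSup S ≤ r₂ := csSup_le ⟨t₀, ht₀⟩ fun t ht => ht.2.1.le
  have p1 : 0 < sInf S := h1.trans_le hu1
  have p2 : 0 < sSup S := p1.trans hu
  have key1 : ∀ {g : ℕ → ℝ}, TP g → ∃ t ∈ S, lo g t = hi g (sInf S) := by
    intro g hg
    obtain ⟨t₁, h3, h4⟩ := exists_above hg p1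
    obtain ⟨t, ht, ht'⟩ := exists_between (lt_min h3 hu)
    exact ⟨t, (Set.Subset.antisymm_iff.1 hI).2 ⟨ht, ht'.trans_le (min_le_right _ _)⟩,
      (h4 t ht (ht'.trans_le (min_le_left _ _))).1⟩
  have key2 : ∀ {g : ℕ → ℝ}, TP g → ∃ t ∈ S, lo g t = lo g (sSup S) := by
    intro g hg
    obtain ⟨t₁, h0, h3, h4⟩ := exists_below hg p2
    obtain ⟨t, ht, ht'⟩ := exists_between (max_lt h3 hu)
    exact ⟨t, (Set.Subset.antisymm_iff.1 hI).2 ⟨(le_max_right _ _).trans_lt ht, ht'⟩,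
      (h4 t ((le_max_left _ _).trans_lt ht) ht').1⟩
  refine ⟨sInf S, sSup S, hu, hu1, hu2, hI, ?_, ?_, ?_, ?_⟩
  · obtain ⟨t, ht, h⟩ := key1 hA
    rw [← h]; exact ht.2.2.2.2.1
  · obtain ⟨t, ht, h⟩ := key1 hB
    rw [← h]; exact ht.2.2.2.2.2.2.1
  · obtain ⟨t, ht, h⟩ := key2 hA
    rw [← h]; exact ht.2.2.2.2.1
  · obtain ⟨t, ht, h⟩ := key2 hB
    rw [← h]; exact ht.2.2.2.2.2.2.1

/-- full intervals contain a fixed point, and the exponents differ by at least two. -/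
theorem EE_full {A B : ℕ → ℝ} (hA : TP A) (hB : TP B) {r₁ r₂ : ℝ} (h1 : 0 < r₁)
    {i j : ℕ} (hij : i ≠ j)
    (H : ∀ t, r₁ < t → t < r₂ → r₁ * tv B t < tv A t → tv A t < r₂ * tv B t →
      (lo A t ≠ lo B t ∨ hi A t ≠ hi B t) → lo A t = hi A t ∧ lo B t = hi B t)
    {u₁ u₂ : ℝ} (hu : u₁ < u₂) (hu1 : r₁ < u₁) (hu2 : u₂ < r₂)
    (hI : EE A B r₁ r₂ i j = Set.Ioo u₁ u₂) (e1 : hi A u₁ = i) (e2 : hi B u₁ = j)
    (e3 : lo A u₂ = i) (e4 : lo B u₂ = j) :
    (i + 2 ≤ j ∨ j + 2 ≤ i) ∧ ∃ t ∈ Set.Ioo u₁ u₂, tv A t = t * tv B t := by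
  have p1 : 0 < u₁ := h1.trans hu1
  have p2 : 0 < u₂ := p1.trans hu
  have h2 : 0 < r₂ := p2.trans hu2
  have a1p := tv_pos hA p1
  have b1p := tv_pos hB p1
  have a2p := tv_pos hA p2
  have b2p := tv_pos hB p2
  set q := u₂ / u₁ with hq
  have hq1 : 1 < q := (one_lt_div p1).2 hu
  have hq0 : 0 < q := by positivity
  have vA : tv A u₂ = tv A u₁ * q ^ i := by
    have := tv_eq_of_hi_eq_lo hA p1 hu.le (e1.trans e3.symm)
    rw [this, e1]
  have vB : tv B u₂ = tv B u₁ * q ^ j := by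
    have := tv_eq_of_hi_eq_lo hB p1 hu.le (e2.trans e4.symm)
    rw [this, e2]
  -- bounds at the endpoints
  have bd1 : ∀ {F : ℝ → ℝ}, ContinuousAt F u₁ → (∀ t ∈ EE A B r₁ r₂ i j, 0 < F t) → 0 ≤ F u₁ := by
    intro F hF hpos
    by_contra hcon
    push Not at hcon
    have ev : ∀ᶠ t in 𝓝 u₁, F t < 0 := hF.eventually_lt continuousAt_const hcon
    obtain ⟨t, ht, ht'⟩ := ((ev.filter_mono nhdsWithin_le_nhds).and (Ioo_mem_nhdsGT hu)).exists
    exact absurd (hpos t (by rw [hI]; exact ht')) (not_lt.2 ht.le)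
  have bd2 : ∀ {F : ℝ → ℝ}, ContinuousAt F u₂ → (∀ t ∈ EE A B r₁ r₂ i j, 0 < F t) → 0 ≤ F u₂ := by
    intro F hF hpos
    by_contra hcon
    push Not at hcon
    have ev : ∀ᶠ t in 𝓝 u₂, F t < 0 := hF.eventually_lt continuousAt_const hcon
    obtain ⟨t, ht, ht'⟩ := ((ev.filter_mono nhdsWithin_le_nhds).and (Ioo_mem_nhdsLT hu)).exists
    exact absurd (hpos t (by rw [hI]; exact ht')) (not_lt.2 ht.le)
  have cA1 := continuousAt_tv_an hA p1
  have cB1 := continuousAt_tv_an hB p1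
  have cA2 := continuousAt_tv_an hA p2
  have cB2 := continuousAt_tv_an hB p2
  have L1 : r₁ * tv B u₁ ≤ tv A u₁ := sub_nonneg.1
    (bd1 (F := fun t => tv A t - r₁ * tv B t) (cA1.sub (continuousAt_const.mul cB1))
      fun t ht => sub_pos.2 ht.2.2.1)
  have U1 : tv A u₁ ≤ r₂ * tv B u₁ := sub_nonneg.1
    (bd1 (F := fun t => r₂ * tv B t - tv A t) ((continuousAt_const.mul cB1).sub cA1)
      fun t ht => sub_pos.2 ht.2.2.2.1)
  have L2 : r₁ * tv B u₂ ≤ tv A u₂ := sub_nonneg.1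
    (bd2 (F := fun t => tv A t - r₁ * tv B t) (cA2.sub (continuousAt_const.mul cB2))
      fun t ht => sub_pos.2 ht.2.2.1)
  have U2 : tv A u₂ ≤ r₂ * tv B u₂ := sub_nonneg.1
    (bd2 (F := fun t => r₂ * tv B t - tv A t) ((continuousAt_const.mul cB2).sub cA2)
      fun t ht => sub_pos.2 ht.2.2.2.1)
  -- the endpoints are not in the set
  have E1 : tv A u₁ = r₁ * tv B u₁ ∨ tv A u₁ = r₂ * tv B u₁ := by
    by_contra hcon
    push Not at hcon
    have g1 : r₁ * tv B u₁ < tv A u₁ := lt_of_le_of_ne L1 (Ne.symm hcon.1)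
    have g2 : tv A u₁ < r₂ * tv B u₁ := lt_of_le_of_ne U1 hcon.2
    obtain ⟨g3, g4⟩ := H u₁ hu1 (hu.trans hu2) g1 g2 (Or.inr (by rw [e1, e2]; exact hij))
    have : u₁ ∈ EE A B r₁ r₂ i j :=
      ⟨hu1, hu.trans hu2, g1, g2, g3.trans e1, e1, g4.trans e2, e2⟩
    rw [hI] at this
    exact lt_irrefl _ this.1
  have E2 : tv A u₂ = r₁ * tv B u₂ ∨ tv A u₂ = r₂ * tv B u₂ := by
    by_contra hcon
    push Not at hcon
    have g1 : r₁ * tv B u₂ < tv A u₂ := lt_of_le_of_ne L2 (Ne.symm hcon.1)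
    have g2 : tv A u₂ < r₂ * tv B u₂ := lt_of_le_of_ne U2 hcon.2
    obtain ⟨g3, g4⟩ := H u₂ (hu1.trans hu) hu2 g1 g2 (Or.inl (by rw [e3, e4]; exact hij))
    have : u₂ ∈ EE A B r₁ r₂ i j :=
      ⟨hu1.trans hu, hu2, g1, g2, e3, g3.symm.trans e3, e4, g4.symm.trans e4⟩
    rw [hI] at this
    exact lt_irrefl _ this.2
  -- intermediate value theorem
  have ivt : ∀ {F : ℝ → ℝ}, ContinuousOn F (Set.Icc u₁ u₂) → F u₁ < 0 → 0 < F u₂ →
      ∃ t ∈ Set.Ioo u₁ u₂, F t = 0 := by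
    intro F hF h3 h4
    exact intermediate_value_Ioo hu.le hF ⟨h3, h4⟩
  have cont : ContinuousOn (fun t => tv A t - t * tv B t) (Set.Icc u₁ u₂) := by
    have sub : Set.Icc u₁ u₂ ⊆ Set.Ici 0 := fun t ht => p1.le.trans ht.1
    exact ((continuousOn_tv hA).mono sub).sub
      (continuousOn_id.mul ((continuousOn_tv hB).mono sub))
  have cont' : ContinuousOn (fun t => t * tv B t - tv A t) (Set.Icc u₁ u₂) := by
    have sub : Set.Icc u₁ u₂ ⊆ Set.Ici 0 := fun t ht => p1.le.trans ht.1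
    exact (continuousOn_id.mul ((continuousOn_tv hB).mono sub)).sub
      ((continuousOn_tv hA).mono sub)
  have hqr : r₁ * q < r₂ := by
    rw [hq, mul_div_assoc', div_lt_iff₀ p1]
    nlinarith
  rcases lt_or_gt_of_ne hij with hlt | hlt
  · -- `i < j`
    obtain ⟨k, hk⟩ := Nat.exists_eq_add_of_lt hlt
    have hj : j = i + (k + 1) := by omega
    have hqk : 1 < q ^ (k + 1) := one_lt_pow₀ hq1 (by omega)
    have hqi : 0 < q ^ i := by positivity
    have vB' : tv B u₂ = tv B u₁ * q ^ i * q ^ (k + 1) := by rw [vB, hj, pow_add]; ring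
    have F1 : tv A u₁ = r₂ * tv B u₁ := by
      rcases E1 with h | h
      · exfalso
        rw [vA, vB', h] at L2
        have : r₁ * (tv B u₁ * q ^ i) * 1 < r₁ * (tv B u₁ * q ^ i) * q ^ (k + 1) :=
          mul_lt_mul_of_pos_left hqk (by positivity)
        nlinarith
      · exact h
    have F2 : tv A u₂ = r₁ * tv B u₂ := by
      rcases E2 with h | h
      · exact h
      · exfalso
        rw [vA, vB', F1] at h
        have : r₂ * (tv B u₁ * q ^ i) * 1 < r₂ * (tv B u₁ * q ^ i) * q ^ (k + 1) :=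
          mul_lt_mul_of_pos_left hqk (by positivity)
        nlinarith
    have F3 : r₂ = r₁ * q ^ (k + 1) := by
      rw [vA, vB', F1] at F2
      have h3 : (tv B u₁ * q ^ i) * r₂ = (tv B u₁ * q ^ i) * (r₁ * q ^ (k + 1)) := by
        linear_combination F2
      exact mul_left_cancel₀ (by positivity) h3
    constructor
    · left
      rcases Nat.eq_zero_or_pos k with rfl | hk0
      · rw [zero_add, pow_one] at F3
        linarith
      · omega
    · obtain ⟨t, ht, h⟩ := ivt cont' (by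
        rw [F1]
        have : u₁ * tv B u₁ < r₂ * tv B u₁ := mul_lt_mul_of_pos_right (hu.trans hu2) b1p
        linarith) (by
        rw [F2]
        have : r₁ * tv B u₂ < u₂ * tv B u₂ := mul_lt_mul_of_pos_right (hu1.trans hu) b2p
        linarith)
      exact ⟨t, ht, (sub_eq_zero.1 h).symm⟩
  · -- `j < i`
    obtain ⟨k, hk⟩ := Nat.exists_eq_add_of_lt hlt
    have hi' : i = j + (k + 1) := by omega
    have hqk : 1 < q ^ (k + 1) := one_lt_pow₀ hq1 (by omega)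
    have hqi : 0 < q ^ j := by positivity
    have vA' : tv A u₂ = tv A u₁ * q ^ j * q ^ (k + 1) := by rw [vA, hi', pow_add]; ring
    have F1 : tv A u₁ = r₁ * tv B u₁ := by
      rcases E1 with h | h
      · exact h
      · exfalso
        rw [vA', vB, h] at U2
        have : r₂ * (tv B u₁ * q ^ j) * 1 < r₂ * (tv B u₁ * q ^ j) * q ^ (k + 1) :=
          mul_lt_mul_of_pos_left hqk (by positivity)
        nlinarith
    have F2 : tv A u₂ = r₂ * tv B u₂ := by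
      rcases E2 with h | h
      · exfalso
        rw [vA', vB, F1] at h
        have : r₁ * (tv B u₁ * q ^ j) * 1 < r₁ * (tv B u₁ * q ^ j) * q ^ (k + 1) :=
          mul_lt_mul_of_pos_left hqk (by positivity)
        nlinarith
      · exact h
    have F3 : r₂ = r₁ * q ^ (k + 1) := by
      rw [vA', vB, F1] at F2
      have h3 : (tv B u₁ * q ^ j) * r₂ = (tv B u₁ * q ^ j) * (r₁ * q ^ (k + 1)) := by
        linear_combination -F2
      exact mul_left_cancel₀ (by positivity) h3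
    constructor
    · right
      rcases Nat.eq_zero_or_pos k with rfl | hk0
      · rw [zero_add, pow_one] at F3
        linarith
      · omega
    · obtain ⟨t, ht, h⟩ := ivt cont (by
        rw [F1]
        have : r₁ * tv B u₁ < u₁ * tv B u₁ := mul_lt_mul_of_pos_right hu1 b1p
        linarith) (by
        rw [F2]
        have : u₂ * tv B u₂ < r₂ * tv B u₂ := mul_lt_mul_of_pos_right hu2 b2p
        linarith)
      exact ⟨t, ht, sub_eq_zero.1 h⟩

/-- exponents of `tmax s A B` on the interval and at its endpoints. -/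
theorem EE_tmax {A B : ℕ → ℝ} (hA : TP A) (hB : TP B) {r₁ r₂ : ℝ} (h1 : 0 < r₁) {i j : ℕ}
    {u₁ u₂ : ℝ} (hu : u₁ < u₂) (hu1 : r₁ ≤ u₁) (hI : EE A B r₁ r₂ i j = Set.Ioo u₁ u₂) {s : ℝ}
    (hs : 0 < s) : lo (tmax s A B) u₂ ≤ max i j ∧ min i j ≤ hi (tmax s A B) u₁ := by
  have p1 : 0 < u₁ := h1.trans_le hu1
  have p2 : 0 < u₂ := p1.trans hu
  have hT := hA.tmax hB hs.le
  have key : ∀ t ∈ Set.Ioo u₁ u₂, hi (tmax s A B) t ≤ max i j ∧ min i j ≤ lo (tmax s A B) t := by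
    intro t ht
    have ht0 : 0 < t := p1.trans ht.1
    rw [← hI] at ht
    obtain ⟨-, -, -, -, a1, a2, b1, b2⟩ := ht
    rcases lt_trichotomy (tv A t) (s * tv B t) with h | h | h
    · rw [lo_tmax_of_gt hA hB hs ht0 h, hi_tmax_of_gt hA hB hs ht0 h, b1, b2]
      exact ⟨le_max_right _ _, min_le_right _ _⟩
    · rw [lo_tmax_of_eq hA hB hs ht0 h, hi_tmax_of_eq hA hB hs ht0 h, a1, a2, b1, b2]
      exact ⟨le_rfl, le_rfl⟩
    · rw [lo_tmax_of_lt hA hB hs.le ht0 h, hi_tmax_of_lt hA hB hs.le ht0 h, a1, a2]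
      exact ⟨le_max_left _ _, min_le_left _ _⟩
  constructor
  · obtain ⟨t₁, h0, h3, h4⟩ := exists_below hT p2
    obtain ⟨t, ht, ht'⟩ := exists_between (max_lt h3 hu)
    rw [← (h4 t ((le_max_left _ _).trans_lt ht) ht').2]
    exact (key t ⟨(le_max_right _ _).trans_lt ht, ht'⟩).1
  · obtain ⟨t₁, h3, h4⟩ := exists_above hT p1
    obtain ⟨t, ht, ht'⟩ := exists_between (lt_min h3 hu)
    rw [← (h4 t ht (ht'.trans_le (min_le_left _ _))).1]
    exact (key t ⟨ht, ht'.trans_le (min_le_right _ _)⟩).2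

end Pool.Agent.Helper17.Berk
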